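import Pool.Agent.Work.MP_b17785_an.Lip.Asm

/-!
# Coefficient multipliers of the class `S`: the uniform Lipschitz dichotomy

For a coefficient multiplier `lam` of `S` one has `|lam 2| ≤ 1`, with equality only for the
rotations; for every `η > 0` all multipliers with `|lam 2| ≤ 1 - η` map `S` into the functions with
derivative bounded by one constant `X`; and conversely the sequences `lam`, `lam 1 = 1`, for which
this bound (for the derivative minus `1`) is `1` are multipliers.
-/

set_option autoImplicit false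

open Metric Set

namespace Pool.Agent.Results.MP_b17785_an.LipschitzDichotomy

/-- The `n`-th Taylor coefficient of `f` at `0`. -/
noncomputable def coeff (f : ℂ → ℂ) (n : ℕ) : ℂ := iteratedDeriv n f 0 / (n.factorial : ℂ)

/-- The class `S`: holomorphic and injective in the open unit disk, `f 0 = 0`, `f' 0 = 1`. -/
def ClassS (f : ℂ → ℂ) : Prop :=
  DifferentiableOn ℂ f (ball 0 1) ∧ InjOn f (ball 0 1) ∧ f 0 = 0 ∧ deriv f 0 = 1

/-- `lam` is a coefficient multiplier from `S` to `S`: for every `f` in `S` the series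
`∑_{n ≥ 1} lam n * a_n * z ^ n` (with `a_n` the Taylor coefficients of `f`) converges in the
unit disk and its sum belongs to `S`. (The value `lam 0` plays no role.) -/
def IsMultiplier (lam : ℕ → ℂ) : Prop :=
  ∀ f : ℂ → ℂ, ClassS f →
    (∀ z ∈ ball (0 : ℂ) 1, Summable (fun n : ℕ => lam (n + 1) * coeff f (n + 1) * z ^ (n + 1))) ∧
    ClassS (fun z => ∑' n : ℕ, lam (n + 1) * coeff f (n + 1) * z ^ (n + 1))

/-- The Lipschitz norm of `lam` (without the first term) is at most `X`: for every `f` in `S` the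
series `∑_{n ≥ 2} n * lam n * a_n * z ^ (n - 1)`, that is the derivative of
`∑_{n ≥ 2} lam n * a_n * z ^ n`, converges in the unit disk to a function bounded by `X`. -/
def LipNormLe (lam : ℕ → ℂ) (X : ℝ) : Prop :=
  ∀ f : ℂ → ℂ, ClassS f → ∀ z ∈ ball (0 : ℂ) 1,
    Summable (fun n : ℕ => ((n : ℂ) + 2) * lam (n + 2) * coeff f (n + 2) * z ^ (n + 1)) ∧
    ‖∑' n : ℕ, ((n : ℂ) + 2) * lam (n + 2) * coeff f (n + 2) * z ^ (n + 1)‖ ≤ X

/-- **The uniform Lipschitz dichotomy for multipliers of univalent functions.** -/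
theorem result :
    -- the second coefficient separates the rotations from the other multipliers
    (∀ lam : ℕ → ℂ, IsMultiplier lam →
      ‖lam 2‖ ≤ 1 ∧ (‖lam 2‖ = 1 → ∀ n : ℕ, 1 ≤ n → lam n = lam 2 ^ (n - 1))) ∧
    -- away from the rotations the multipliers are bounded in the Lipschitz norm
    (∀ η : ℝ, 0 < η → ∃ X : ℝ, ∀ lam : ℕ → ℂ, IsMultiplier lam → ‖lam 2‖ ≤ 1 - η →
      LipNormLe lam X) ∧
    -- and they contain a ball of the Lipschitz norm
    (∀ lam : ℕ → ℂ, lam 1 = 1 → LipNormLe lam 1 → IsMultiplier lam) :=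
  ⟨Pool.Agent.MultS.Lip.secondAll Pool.Agent.MultS.Lip.prfRotTwo,
    Pool.Agent.MultS.Lip.dichAll, Pool.Agent.MultS.Lip.prfSuf⟩

end Pool.Agent.Results.MP_b17785_an.LipschitzDichotomy
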