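import Pool.Agent.Work.MP_b17785_an.All

/-!
# Small non-negative coefficient multipliers of the class `S`

For `μ ≥ 0` the sequences `1, c μ 2, c μ 3, ...` are coefficient multipliers from `S` to `S` for all
small `c > 0` if and only if `∑ n ^ 2 μ n` converges.
-/

set_option autoImplicit false

open Metric Set

namespace Pool.Agent.Results.MP_b17785_an.SmallMultipliers

/-- The `n`-th Taylor coefficient of `f` at `0`. -/
noncomputable def coeff (f : ℂ → ℂ) (n : ℕ) : ℂ := iteratedDeriv n f 0 / (n.factorial : ℂ)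

/-- The class `S`: holomorphic and injective in the open unit disk, `f 0 = 0`, `f' 0 = 1`. -/
def ClassS (f : ℂ → ℂ) : Prop :=
  DifferentiableOn ℂ f (ball 0 1) ∧ InjOn f (ball 0 1) ∧ f 0 = 0 ∧ deriv f 0 = 1

/-- `lam` is a coefficient multiplier from `S` to `S`: for every `f` in `S` the series
`∑_{n ≥ 1} lam n * a_n * z ^ n` (with `a_n` the Taylor coefficients of `f`) converges in the
unit disk and its sum belongs to `S`. (The value `lam 0` plays no role.) -/
def IsMultiplier (lam : ℕ → ℂ) : Prop :=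
  ∀ f : ℂ → ℂ, ClassS f →
    (∀ z ∈ ball (0 : ℂ) 1, Summable (fun n : ℕ => lam (n + 1) * coeff f (n + 1) * z ^ (n + 1))) ∧
    ClassS (fun z => ∑' n : ℕ, lam (n + 1) * coeff f (n + 1) * z ^ (n + 1))

/-- **Small non-negative multipliers.** -/
theorem result (μ : ℕ → ℝ) (hμ : ∀ n, 0 ≤ μ n) :
    (∃ c₀ : ℝ, 0 < c₀ ∧ ∀ c : ℝ, 0 < c → c ≤ c₀ →
      IsMultiplier (fun n => ((if n ≤ 1 then 1 else c * μ n : ℝ) : ℂ))) ↔
    Summable (fun n : ℕ => (n : ℝ) ^ 2 * μ n) :=
  Pool.Agent.MultS.pertIff Pool.Agent.MultS.suffAll Pool.Agent.MultS.finalAll.2.2 μ hμ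

end Pool.Agent.Results.MP_b17785_an.SmallMultipliers
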